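import Pool.Agent.H71.CR.Stmt

/-!
# MEM: membership in pieces is preserved in positions of rank `om2`
-/

set_option autoImplicit false

open Set Pool.Agent.TK Pool.Agent.H71.VK

namespace Pool.Agent.CR

namespace H75MEM

variable {C : Type} {M M' : St (C × ℕ)}

lemma pl_PI {p : List (ℕ × ℕ)} (hp : PI M M' p) : Pl (bn M) (bn M') p :=
  fun q hq => congrArg Prod.snd (hp.2.2 q hq)

/-- moves for a list of points -/
lemma fwd {r : Rk} : ∀ (W : List ℕ) (p : List (ℕ × ℕ)),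
    bf M M' univ univ (Rk.sucN W.length r) p → ∃ p' : List (ℕ × ℕ), (∀ q ∈ p, q ∈ p') ∧
      bf M M' univ univ r p' ∧ ∀ a ∈ W, ∃ b, (a, b) ∈ p'
  | [], p, hp => ⟨p, fun _ h => h, hp, fun a ha => absurd ha (by simp)⟩
  | a :: W, p, hp => by
    obtain ⟨-, h2, -⟩ := hp 0
    obtain ⟨b, -, hb⟩ := h2 a (mem_univ _)
    obtain ⟨p', e1, e2, e3⟩ := fwd W _ hb
    refine ⟨p', fun q hq => e1 q (List.mem_cons_of_mem _ hq), e2, fun x hx => ?_⟩
    rcases List.mem_cons.1 hx with rfl | hx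
    · exact ⟨b, e1 _ List.mem_cons_self⟩
    · exact e3 x hx

lemma bwd {r : Rk} : ∀ (W : List ℕ) (p : List (ℕ × ℕ)),
    bf M M' univ univ (Rk.sucN W.length r) p → ∃ p' : List (ℕ × ℕ), (∀ q ∈ p, q ∈ p') ∧
      bf M M' univ univ r p' ∧ ∀ b ∈ W, ∃ a, (a, b) ∈ p'
  | [], p, hp => ⟨p, fun _ h => h, hp, fun a ha => absurd ha (by simp)⟩
  | b :: W, p, hp => by
    obtain ⟨-, -, h2⟩ := hp 0
    obtain ⟨a, -, ha⟩ := h2 b (mem_univ _)
    obtain ⟨p', e1, e2, e3⟩ := bwd W _ ha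
    refine ⟨p', fun q hq => e1 q (List.mem_cons_of_mem _ hq), e2, fun x hx => ?_⟩
    rcases List.mem_cons.1 hx with rfl | hx
    · exact ⟨a, e1 _ List.mem_cons_self⟩
    · exact e3 x hx

/-- the functions given by a position -/
lemma fn {p : List (ℕ × ℕ)} (hp : ∀ z ∈ p, ∀ w ∈ p, (z.1 = w.1 ↔ z.2 = w.2)) :
    ∃ h g : ℕ → ℕ, ∀ z ∈ p, h z.1 = z.2 ∧ g z.2 = z.1 := by
  classical
  refine ⟨fun a => if h : ∃ b, (a, b) ∈ p then h.choose else 0,
    fun b => if h : ∃ a, (a, b) ∈ p then h.choose else 0, fun z hz => ⟨?_, ?_⟩⟩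
  · have h1 : ∃ b, (z.1, b) ∈ p := ⟨z.2, hz⟩
    change (if h : ∃ b, (z.1, b) ∈ p then h.choose else 0) = z.2
    rw [dif_pos h1]
    exact (hp _ h1.choose_spec z hz).1 rfl
  · have h1 : ∃ a, (a, z.2) ∈ p := ⟨z.1, hz⟩
    change (if h : ∃ a, (a, z.2) ∈ p then h.choose else 0) = z.1
    rw [dif_pos h1]
    exact (hp _ h1.choose_spec z hz).2 rfl

lemma mem_pat {p : List (ℕ × ℕ)} (hp : ∀ z ∈ p, ∀ w ∈ p, (z.1 = w.1 ↔ z.2 = w.2))
    {L : List ℕ} {h : ℕ → ℕ} (hL : ∀ a ∈ L, (a, h a) ∈ p) {z : ℕ × ℕ} (hz : z ∈ p) :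
    z.1 ∈ L ↔ z.2 ∈ L.map h := by
  constructor
  · intro h1
    have h2 : h z.1 = z.2 := (hp (z.1, h z.1) (hL z.1 h1) z hz).1 rfl
    rw [← h2]
    exact List.mem_map_of_mem h1
  · intro h1
    obtain ⟨a, ha, hax⟩ := List.mem_map.1 h1
    have h2 : a = z.1 := (hp (a, h a) (hL a ha) z hz).2 hax
    rw [← h2]
    exact ha

/-- closures of base points outside the piece -/
lemma cl_out {c : Lf} {P : Set ℕ} {L : List ℕ} {F : Ed} {x : Xr}
    (hx : ¬ ∀ a ∈ x.1, a ∈ Ur P L) : cl c P L F x = Ur P L := by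
  ext y
  exact ⟨fun h => h.1, fun h => ⟨h, fun Z hZ hxZ => absurd (fun a ha => hZ.sub (hxZ a ha)) hx⟩⟩

lemma cl_bf (hCLF : T_CLF) (hCLT : T_CLT) {P P' : Set ℕ} {L : List ℕ} {F : Ed} {x : Xr}
    {h : ℕ → ℕ} {r : Rk} {p : List (ℕ × ℕ)}
    (hP : ∀ p' : List (ℕ × ℕ), (∀ q ∈ p, q ∈ p') → bf M M' univ univ r p' → ∀ q ∈ p',
      (q.1 ∈ P ↔ q.2 ∈ P'))
    (hL : ∀ a ∈ L, (a, h a) ∈ p) (hF : ∀ e ∈ F, ∀ a ∈ e, (a, h a) ∈ p)
    (hx : ∀ a ∈ x.1, (a, h a) ∈ p) (hp : bf M M' univ univ (Rk.lim r) p) :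
    ∀ q ∈ p, (q.1 ∈ cl (bn M) P L F x ↔
      q.2 ∈ cl (bn M') P' (L.map h) (F.map (List.map h)) (x.1.map h, x.2.map h)) := by
  intro q hq
  have hpr := RLe.lim (C := C × ℕ) r _ _ _ _ _ hp
  have hUr : ∀ p' : List (ℕ × ℕ), (∀ q ∈ p, q ∈ p') → bf M M' univ univ r p' → ∀ q ∈ p',
      (q.1 ∈ Ur P L ↔ q.2 ∈ Ur P' (L.map h)) := by
    intro p' h1 h2 q hq
    rw [mem_ur, mem_ur, hP p' h1 h2 q hq,
      mem_pat (bf_PI h2).1 (fun a ha => h1 _ (hL a ha)) hq]
  have hX : (∀ a ∈ x.1, a ∈ Ur P L) ↔ ∀ a ∈ x.1.map h, a ∈ Ur P' (L.map h) := by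
    constructor
    · intro h1 a ha
      obtain ⟨b, hb, rfl⟩ := List.mem_map.1 ha
      exact (hUr p (fun _ h => h) hpr _ (hx b hb)).1 (h1 b hb)
    · intro h1 a ha
      exact (hUr p (fun _ h => h) hpr _ (hx a ha)).2 (h1 _ (List.mem_map_of_mem ha))
  by_cases hX1 : ∀ a ∈ x.1, a ∈ Ur P L
  · have hX2 := hX.1 hX1
    -- closures in finite sets
    have key : ∀ (p' : List (ℕ × ℕ)), (∀ q ∈ p, q ∈ p') → bf M M' univ univ r p' →
        ∀ h' : ℕ → ℕ, (∀ z ∈ p', h' z.1 = z.2) → ∀ W : List ℕ, (∀ a ∈ W, (a, h' a) ∈ p') →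
        (q.1 ∈ cl (bn M) (ms W) L F x ↔ q.2 ∈ cl (bn M') (ms (W.map h')) (L.map h)
          (F.map (List.map h)) (x.1.map h, x.2.map h)) := by
      intro p' h1 h2 h' h3 W hW
      have e0 : ∀ a, (a, h a) ∈ p → h' a = h a := fun a ha => h3 _ (h1 _ ha)
      have e0' : ∀ a, (a, h a) ∈ p → (a, h' a) ∈ p' := fun a ha => by
        rw [e0 a ha]
        exact h1 _ ha
      have h4 := hCLT (bn M) (bn M') p' (bf_PI h2).1 (pl_PI (bf_PI h2)) h' W L F x hW
        (fun a ha => e0' a (hL a ha)) (fun e he a ha => e0' a (hF e he a ha))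
        (fun a ha => e0' a (hx a ha)) q (h1 q hq)
      have e1 : L.map h' = L.map h := List.map_congr_left fun a ha => e0 a (hL a ha)
      have e2 : F.map (List.map h') = F.map (List.map h) := List.map_congr_left fun e he =>
        List.map_congr_left fun a ha => e0 a (hF e he a ha)
      have e3 : x.1.map h' = x.1.map h := List.map_congr_left fun a ha => e0 a (hx a ha)
      rw [e1, e2, e3] at h4
      exact h4
    rw [hCLF _ _ _ _ _ hX1, hCLF _ _ _ _ _ (show ∀ a ∈ (x.1.map h, x.2.map h).1,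
      a ∈ Ur P' (L.map h) from hX2)]
    constructor
    · rintro ⟨W, h1, h2, h3⟩
      obtain ⟨p', e1, e2, e3⟩ := fwd W p (RLe.lim' (C := C × ℕ) W.length r _ _ _ _ _ hp)
      obtain ⟨h', g', e4⟩ := fn (bf_PI e2).1
      have e5 : ∀ a ∈ W, (a, h' a) ∈ p' := by
        intro a ha
        obtain ⟨b, hb⟩ := e3 a ha
        have e6 : h' a = b := (e4 _ hb).1
        rw [e6]
        exact hb
      refine ⟨W.map h', ?_, ?_, (key p' e1 e2 h' (fun z hz => (e4 z hz).1) W e5).1 h3⟩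
      · intro b hb
        obtain ⟨a, ha, rfl⟩ := List.mem_map.1 hb
        exact (hUr p' e1 e2 _ (e5 a ha)).1 (h1 a ha)
      · intro b hb
        obtain ⟨a, ha, rfl⟩ := List.mem_map.1 hb
        have e6 : h' a = h a := (e4 _ (e1 _ (hx a ha))).1
        rw [← e6]
        exact List.mem_map_of_mem (h2 a ha)
    · rintro ⟨W', h1, h2, h3⟩
      obtain ⟨p', e1, e2, e3⟩ := bwd W' p (RLe.lim' (C := C × ℕ) W'.length r _ _ _ _ _ hp)
      obtain ⟨h', g', e4⟩ := fn (bf_PI e2).1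
      have e5 : ∀ b ∈ W', (g' b, b) ∈ p' ∧ h' (g' b) = b := by
        intro b hb
        obtain ⟨a, ha⟩ := e3 b hb
        have e6 : g' b = a := (e4 _ ha).2
        have e7 : h' a = b := (e4 _ ha).1
        rw [e6]
        exact ⟨ha, e7⟩
      have e8 : (W'.map g').map h' = W' := by
        rw [List.map_map]
        exact map_fix fun b hb => (e5 b hb).2
      have e9 : ∀ a ∈ W'.map g', (a, h' a) ∈ p' := by
        intro a ha
        obtain ⟨b, hb, rfl⟩ := List.mem_map.1 ha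
        rw [(e5 b hb).2]
        exact (e5 b hb).1
      refine ⟨W'.map g', ?_, ?_, ?_⟩
      · intro a ha
        obtain ⟨b, hb, rfl⟩ := List.mem_map.1 ha
        exact (hUr p' e1 e2 _ (e5 b hb).1).2 (h1 b hb)
      · intro a ha
        have e6 : g' (h a) = a := (e4 _ (e1 _ (hx a ha))).2
        have h4 := List.mem_map_of_mem (f := g') (h2 (h a) (List.mem_map_of_mem ha))
        rw [e6] at h4
        exact h4
      · rw [key p' e1 e2 h' (fun z hz => (e4 z hz).1) _ e9, e8]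
        exact h3
  · have hX2 : ¬ ∀ a ∈ (x.1.map h, x.2.map h).1, a ∈ Ur P' (L.map h) := fun h1 => hX1 (hX.2 h1)
    rw [cl_out hX1, cl_out hX2]
    exact hUr p (fun _ h => h) hpr q hq

/-- transfer of positions of labels -/
lemma pl_tr {c c' : Lf} {p : List (ℕ × ℕ)} (hp : Pl c c' p) {h : ℕ → ℕ} {u : List (ℕ × ℕ)}
    (hu : ∀ z ∈ u, (z.1, h z.1) ∈ p ∧ (z.2, h z.2) ∈ p) :
    Pl c' c' (u.map (Prod.map h h)) ↔ Pl c c u := by
  have key : ∀ l : List ℕ, (∀ a ∈ l, (a, h a) ∈ p) → c' (l.map h) = c l := by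
    intro l hl
    have h1 := hp (l.map fun a => (a, h a)) (by
      intro z hz
      obtain ⟨a, ha, rfl⟩ := List.mem_map.1 hz
      exact hl a ha)
    rw [List.map_map, List.map_map] at h1
    have e : l.map (Prod.fst ∘ fun a => (a, h a)) = l := by
      conv_rhs => rw [← List.map_id l]
      rfl
    rw [e] at h1
    exact h1.symm
  have e1 : ∀ q : List (ℕ × ℕ), (q.map (Prod.map h h)).map Prod.fst = (q.map Prod.fst).map h := by
    intro q
    rw [List.map_map, List.map_map]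
    rfl
  have e2 : ∀ q : List (ℕ × ℕ), (q.map (Prod.map h h)).map Prod.snd = (q.map Prod.snd).map h := by
    intro q
    rw [List.map_map, List.map_map]
    rfl
  have k1 : ∀ q : List (ℕ × ℕ), (∀ z ∈ q, z ∈ u) →
      c' ((q.map Prod.fst).map h) = c (q.map Prod.fst) := fun q hq => key _ fun a ha => by
    obtain ⟨z, hz, rfl⟩ := List.mem_map.1 ha
    exact (hu z (hq z hz)).1
  have k2 : ∀ q : List (ℕ × ℕ), (∀ z ∈ q, z ∈ u) →
      c' ((q.map Prod.snd).map h) = c (q.map Prod.snd) := fun q hq => key _ fun a ha => by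
    obtain ⟨z, hz, rfl⟩ := List.mem_map.1 ha
    exact (hu z (hq z hz)).2
  constructor
  · intro h1 q hq
    have h2 := h1 (q.map (Prod.map h h)) fun z hz => by
      obtain ⟨w, hw, rfl⟩ := List.mem_map.1 hz
      exact List.mem_map_of_mem (hq w hw)
    rw [e1, e2, k1 q hq, k2 q hq] at h2
    exact h2
  · intro h1 q hq
    have hch : ∀ z ∈ q, ∃ w ∈ u, Prod.map h h w = z := fun z hz => List.mem_map.1 (hq z hz)
    obtain ⟨q', hq', rfl⟩ : ∃ q' : List (ℕ × ℕ), (∀ w ∈ q', w ∈ u) ∧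
        q'.map (Prod.map h h) = q := by
      clear hq
      induction q with
      | nil => exact ⟨[], by simp, rfl⟩
      | cons z q ih =>
        obtain ⟨q', h2, h3⟩ := ih fun z hz => hch z (List.mem_cons_of_mem _ hz)
        obtain ⟨w, hw, rfl⟩ := hch z List.mem_cons_self
        refine ⟨w :: q', ?_, by rw [List.map_cons, h3]⟩
        intro v hv
        rcases List.mem_cons.1 hv with rfl | hv
        · exact hw
        · exact h2 v hv
    rw [e1, e2, k1 q' hq', k2 q' hq']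
    exact h1 q' hq'

/-- control by a list is preserved -/
lemma ctl_bf {A A' B B' : Set ℕ} {K : List ℕ} {h : ℕ → ℕ} {r : Rk} {p : List (ℕ × ℕ)}
    (hA : ∀ p' : List (ℕ × ℕ), (∀ q ∈ p, q ∈ p') → bf M M' univ univ r p' → ∀ q ∈ p',
      (q.1 ∈ A ↔ q.2 ∈ A'))
    (hB : ∀ p' : List (ℕ × ℕ), (∀ q ∈ p, q ∈ p') → bf M M' univ univ r p' → ∀ q ∈ p',
      (q.1 ∈ B ↔ q.2 ∈ B'))
    (hK : ∀ a ∈ K, (a, h a) ∈ p) (hp : bf M M' univ univ (Rk.lim r) p) :
    (∀ q : List (ℕ × ℕ), (∀ z ∈ q, z.1 ∈ B ∧ z.2 ∈ B) → Pl (bn M) (bn M) (dg K ++ q) →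
      ∀ D : List ℕ, (∀ y ∈ D, y ∈ A) → Pl (bn M) (bn M) (dg D ++ (dg K ++ q))) ↔
    (∀ q : List (ℕ × ℕ), (∀ z ∈ q, z.1 ∈ B' ∧ z.2 ∈ B') →
      Pl (bn M') (bn M') (dg (K.map h) ++ q) → ∀ D : List ℕ, (∀ y ∈ D, y ∈ A') →
      Pl (bn M') (bn M') (dg D ++ (dg (K.map h) ++ q))) := by
  -- transfer along one extended position
  have key : ∀ (p' : List (ℕ × ℕ)), (∀ q ∈ p, q ∈ p') → bf M M' univ univ r p' →
      ∀ h' : ℕ → ℕ, (∀ z ∈ p', h' z.1 = z.2) → ∀ q : List (ℕ × ℕ),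
      (∀ z ∈ q, (z.1, h' z.1) ∈ p' ∧ (z.2, h' z.2) ∈ p') → ∀ D : List ℕ,
      (∀ a ∈ D, (a, h' a) ∈ p') →
      (Pl (bn M') (bn M') (dg (D.map h') ++ (dg (K.map h) ++ q.map (Prod.map h' h'))) ↔
        Pl (bn M) (bn M) (dg D ++ (dg K ++ q))) := by
    intro p' h1 h2 h' h3 q hq D hD
    have e1 : K.map h = K.map h' := List.map_congr_left fun a ha => (h3 _ (h1 _ (hK a ha))).symm
    rw [e1, dg_map, dg_map, ← List.map_append, ← List.map_append]
    refine pl_tr (pl_PI (bf_PI h2)) fun z hz => ?_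
    rcases List.mem_append.1 hz with h4 | h4
    · obtain ⟨h5, h6⟩ := mem_dg.1 h4
      rw [← h5]
      exact ⟨hD _ h6, hD _ h6⟩
    · rcases List.mem_append.1 h4 with h5 | h5
      · obtain ⟨h6, h7⟩ := mem_dg.1 h5
        have h8 : (z.1, h' z.1) ∈ p' := by
          have h9 := h1 _ (hK _ h7)
          rw [h3 _ h9]
          exact h9
        rw [← h6]
        exact ⟨h8, h8⟩
      · exact hq z h5
  constructor
  · intro H q' hq' hpl' D' hD'
    obtain ⟨p', e1, e2, e3⟩ := bwd (q'.map Prod.fst ++ (q'.map Prod.snd ++ D')) p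
      (RLe.lim' (C := C × ℕ) _ r _ _ _ _ _ hp)
    obtain ⟨h', g', e4⟩ := fn (bf_PI e2).1
    have e5 : ∀ b ∈ q'.map Prod.fst ++ (q'.map Prod.snd ++ D'), (g' b, b) ∈ p' ∧
        h' (g' b) = b := by
      intro b hb
      obtain ⟨a, ha⟩ := e3 b hb
      have e6 : g' b = a := (e4 _ ha).2
      have e7 : h' a = b := (e4 _ ha).1
      rw [e6]
      exact ⟨ha, e7⟩
    have f1 : ∀ z ∈ q', (g' z.1, z.1) ∈ p' ∧ h' (g' z.1) = z.1 := fun z hz =>
      e5 _ (List.mem_append_left _ (List.mem_map_of_mem hz))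
    have f2 : ∀ z ∈ q', (g' z.2, z.2) ∈ p' ∧ h' (g' z.2) = z.2 := fun z hz =>
      e5 _ (List.mem_append_right _ (List.mem_append_left _ (List.mem_map_of_mem hz)))
    have f3 : ∀ b ∈ D', (g' b, b) ∈ p' ∧ h' (g' b) = b := fun b hb =>
      e5 _ (List.mem_append_right _ (List.mem_append_right _ hb))
    have g1 : (q'.map (Prod.map g' g')).map (Prod.map h' h') = q' := by
      rw [List.map_map]
      conv_rhs => rw [← List.map_id q']
      exact List.map_congr_left fun z hz => Prod.ext (f1 z hz).2 (f2 z hz).2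
    have g2 : (D'.map g').map h' = D' := by
      rw [List.map_map]
      exact map_fix fun b hb => (f3 b hb).2
    have g3 : ∀ z ∈ q'.map (Prod.map g' g'), (z.1, h' z.1) ∈ p' ∧ (z.2, h' z.2) ∈ p' := by
      intro z hz
      obtain ⟨w, hw, rfl⟩ := List.mem_map.1 hz
      constructor
      · change (g' w.1, h' (g' w.1)) ∈ p'
        rw [(f1 w hw).2]
        exact (f1 w hw).1
      · change (g' w.2, h' (g' w.2)) ∈ p'
        rw [(f2 w hw).2]
        exact (f2 w hw).1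
    have g4 : ∀ a ∈ D'.map g', (a, h' a) ∈ p' := by
      intro a ha
      obtain ⟨b, hb, rfl⟩ := List.mem_map.1 ha
      rw [(f3 b hb).2]
      exact (f3 b hb).1
    have k1 := key p' e1 e2 h' (fun z hz => (e4 z hz).1) _ g3 [] (by simp)
    have k2 := key p' e1 e2 h' (fun z hz => (e4 z hz).1) _ g3 _ g4
    rw [g1] at k1 k2
    rw [g2] at k2
    refine k2.2 (H _ ?_ (k1.1 hpl') _ ?_)
    · intro z hz
      obtain ⟨w, hw, rfl⟩ := List.mem_map.1 hz
      exact ⟨(hB p' e1 e2 _ (f1 w hw).1).2 (hq' w hw).1, (hB p' e1 e2 _ (f2 w hw).1).2 (hq' w hw).2⟩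
    · intro y hy
      obtain ⟨b, hb, rfl⟩ := List.mem_map.1 hy
      exact (hA p' e1 e2 _ (f3 b hb).1).2 (hD' b hb)
  · intro H q hq hpl D hD
    obtain ⟨p', e1, e2, e3⟩ := fwd (q.map Prod.fst ++ (q.map Prod.snd ++ D)) p
      (RLe.lim' (C := C × ℕ) _ r _ _ _ _ _ hp)
    obtain ⟨h', g', e4⟩ := fn (bf_PI e2).1
    have e5 : ∀ a ∈ q.map Prod.fst ++ (q.map Prod.snd ++ D), (a, h' a) ∈ p' := by
      intro a ha
      obtain ⟨b, hb⟩ := e3 a ha
      have e6 : h' a = b := (e4 _ hb).1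
      rw [e6]
      exact hb
    have f1 : ∀ z ∈ q, (z.1, h' z.1) ∈ p' ∧ (z.2, h' z.2) ∈ p' := fun z hz =>
      ⟨e5 _ (List.mem_append_left _ (List.mem_map_of_mem hz)),
        e5 _ (List.mem_append_right _ (List.mem_append_left _ (List.mem_map_of_mem hz)))⟩
    have f3 : ∀ a ∈ D, (a, h' a) ∈ p' := fun b hb =>
      e5 _ (List.mem_append_right _ (List.mem_append_right _ hb))
    have k1 := key p' e1 e2 h' (fun z hz => (e4 z hz).1) _ f1 [] (by simp)
    have k2 := key p' e1 e2 h' (fun z hz => (e4 z hz).1) _ f1 _ f3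
    refine k2.1 (H _ ?_ (k1.2 hpl) _ ?_)
    · intro z hz
      obtain ⟨w, hw, rfl⟩ := List.mem_map.1 hz
      exact ⟨(hB p' e1 e2 _ (f1 w hw).1).1 (hq w hw).1, (hB p' e1 e2 _ (f1 w hw).2).1 (hq w hw).2⟩
    · intro y hy
      obtain ⟨b, hb, rfl⟩ := List.mem_map.1 hy
      exact (hA p' e1 e2 _ (f3 b hb)).1 (hD b hb)

lemma main (hCLF : T_CLF) (hCLT : T_CLT) (h : ℕ → ℕ) : ∀ (π : Pr) (p : List (ℕ × ℕ)),
    bf M M' univ univ ((Rk.lim^[2 * π.length]) Rk.zero) p → (∀ a ∈ dl π, (a, h a) ∈ p) →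
    (Vd (bn M) π ↔ Vd (bn M') (mp h π)) ∧
    ∀ q ∈ p, (q.1 ∈ st (bn M) π ↔ q.2 ∈ st (bn M') (mp h π)) := by
  intro π
  induction π with
  | nil =>
    intro p _ _
    exact ⟨Iff.rfl, fun q _ => Iff.intro (fun _ => mem_univ _) (fun _ => mem_univ _)⟩
  | cons s π ih =>
    obtain ⟨S, F, x, β⟩ := s
    intro p hp hd
    set r := (Rk.lim^[2 * π.length]) Rk.zero with hr
    have e0 : (Rk.lim^[2 * ((S, F, x, β) :: π).length]) Rk.zero = Rk.lim (Rk.lim r) := by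
      rw [List.length_cons, Nat.mul_succ, Function.iterate_succ_apply', Function.iterate_succ_apply']
    rw [e0] at hp
    have hp1 : bf M M' univ univ (Rk.lim r) p := RLe.lim (C := C × ℕ) _ _ _ _ _ _ hp
    have hp0 : bf M M' univ univ r p := RLe.lim (C := C × ℕ) _ _ _ _ _ _ hp1
    have hd1 : ∀ a ∈ dl π, (a, h a) ∈ p := fun a ha => hd a (dl_sub_cons _ _ ha)
    have hX : ∀ a ∈ x.1, (a, h a) ∈ p := fun a ha => hd a (mem_dl_cons.2 (Or.inl ha))
    have hX2 : ∀ a ∈ x.2, (a, h a) ∈ p := fun a ha => hd a (mem_dl_cons.2 (Or.inr (Or.inl ha)))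
    have hF : ∀ e ∈ F, ∀ a ∈ e, (a, h a) ∈ p := fun e he a ha =>
      hd a (mem_dl_cons.2 (Or.inr (Or.inr (Or.inl ⟨e, he, ha⟩))))
    have hS : ∀ a ∈ S, (a, h a) ∈ p := fun a ha =>
      hd a (mem_dl_cons.2 (Or.inr (Or.inr (Or.inr (Or.inl ha)))))
    have hL : ∀ a ∈ S ++ zl π, (a, h a) ∈ p := by
      intro a ha
      rcases List.mem_append.1 ha with h1 | h1
      · exact hS a h1
      · exact hd1 a (zl_sub_dl π h1)
    have eL : (S ++ zl π).map h = S.map h ++ zl (mp h π) := by rw [List.map_append, zl_mp]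
    -- membership in the piece
    have hP : ∀ p' : List (ℕ × ℕ), (∀ q ∈ p, q ∈ p') → bf M M' univ univ r p' → ∀ q ∈ p',
        (q.1 ∈ st (bn M) π ↔ q.2 ∈ st (bn M') (mp h π)) := fun p' h1 h2 =>
      (ih p' h2 fun a ha => h1 _ (hd1 a ha)).2
    -- membership in the closure
    have hcl : ∀ p' : List (ℕ × ℕ), (∀ q ∈ p, q ∈ p') → bf M M' univ univ (Rk.lim r) p' →
        ∀ q ∈ p', (q.1 ∈ cl (bn M) (st (bn M) π) (S ++ zl π) F x ↔
          q.2 ∈ cl (bn M') (st (bn M') (mp h π)) (S.map h ++ zl (mp h π)) (F.map (List.map h))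
            (x.1.map h, x.2.map h)) := by
      intro p' h1 h2 q hq
      rw [← eL]
      exact cl_bf hCLF hCLT (fun p'' h3 h4 => hP p'' (fun q hq => h3 _ (h1 q hq)) h4)
        (fun a ha => h1 _ (hL a ha)) (fun e he a ha => h1 _ (hF e he a ha))
        (fun a ha => h1 _ (hX a ha)) h2 q hq
    have hmL : ∀ p' : List (ℕ × ℕ), (∀ q ∈ p, q ∈ p') → bf M M' univ univ (Rk.lim r) p' →
        ∀ q ∈ p', (q.1 ∈ S ++ zl π ↔ q.2 ∈ S.map h ++ zl (mp h π)) := by
      intro p' h1 h2 q hq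
      rw [← eL]
      exact mem_pat (bf_PI h2).1 (fun a ha => h1 _ (hL a ha)) hq
    have hco : ∀ p' : List (ℕ × ℕ), (∀ q ∈ p, q ∈ p') → bf M M' univ univ (Rk.lim r) p' →
        ∀ q ∈ p', (q.1 ∈ co (bn M) (st (bn M) π) (S ++ zl π) F x ↔
          q.2 ∈ co (bn M') (st (bn M') (mp h π)) (S.map h ++ zl (mp h π)) (F.map (List.map h))
            (x.1.map h, x.2.map h)) := by
      intro p' h1 h2 q hq
      have h3 := hP p' h1 (RLe.lim (C := C × ℕ) _ _ _ _ _ _ h2) q hq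
      have h4 := hcl p' h1 h2 q hq
      have h5 := hmL p' h1 h2 q hq
      unfold co
      simp only [Set.mem_ofPred_eq]
      rw [h3, h4, h5]
    have hU : ∀ q ∈ p, (q.1 ∈ Ur (st (bn M) π) (S ++ zl π) ↔
        q.2 ∈ Ur (st (bn M') (mp h π)) (S.map h ++ zl (mp h π))) := by
      intro q hq
      rw [mem_ur, mem_ur, hP p (fun _ h => h) hp0 q hq, hmL p (fun _ h => h) hp1 q hq]
    have all : ∀ (A A' : Set ℕ), (∀ q ∈ p, (q.1 ∈ A ↔ q.2 ∈ A')) → ∀ L : List ℕ,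
        (∀ a ∈ L, (a, h a) ∈ p) → ((∀ a ∈ L, a ∈ A) ↔ ∀ a ∈ L.map h, a ∈ A') := by
      intro A A' h1 L h2
      constructor
      · intro h3 a ha
        obtain ⟨b, hb, rfl⟩ := List.mem_map.1 ha
        exact (h1 _ (h2 b hb)).1 (h3 b hb)
      · intro h3 a ha
        exact (h1 _ (h2 a ha)).2 (h3 _ (List.mem_map_of_mem ha))
    obtain ⟨i1, i2⟩ := ih p hp0 hd1
    constructor
    · rw [mp_cons, vd_cons, vd_cons]
      simp only
      rw [i1, all _ _ (hP p (fun _ h => h) hp0) S hS, all _ _ hU x.1 hX]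
      have e1 : (∀ e ∈ F, ∀ a ∈ e, a ∈ Ur (st (bn M) π) (S ++ zl π)) ↔
          ∀ e ∈ F.map (List.map h), ∀ a ∈ e,
            a ∈ Ur (st (bn M') (mp h π)) (S.map h ++ zl (mp h π)) := by
        constructor
        · intro h1 e he
          obtain ⟨e', he', rfl⟩ := List.mem_map.1 he
          exact (all _ _ hU e' (hF e' he')).1 (h1 e' he')
        · intro h1 e he
          exact (all _ _ hU e (hF e he)).2 (h1 _ (List.mem_map_of_mem he))
      have e2 : Rr (bn M) (st (bn M) π) (S ++ zl π) F x ↔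
          Rr (bn M') (st (bn M') (mp h π)) (S.map h ++ zl (mp h π)) (F.map (List.map h))
            (x.1.map h, x.2.map h) := by
        unfold Rr
        rw [all _ _ (hcl p (fun _ h => h) hp1) x.2 hX2]
        have h1 := ctl_bf (K := x.2 ++ (S ++ zl π)) (h := h) hcl hco (by
          intro a ha
          rcases List.mem_append.1 ha with h2 | h2
          · exact hX2 a h2
          · exact hL a h2) hp
        rw [List.map_append, eL] at h1
        rw [h1]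
      rw [e1, e2]
    · intro q hq
      rw [mp_cons]
      simp only
      cases β with
      | true =>
        rw [st_true, st_true]
        exact hcl p (fun _ h => h) hp1 q hq
      | false =>
        rw [st_false, st_false]
        exact hco p (fun _ h => h) hp1 q hq

end H75MEM

theorem pf_MEM {C : Type} (hCLF : T_CLF) (hCLT : T_CLT) : T_MEM C := by
  intro M M' π h p hp hd
  exact H75MEM.main hCLF hCLT h π p (hp (2 * π.length)).1 hd

end Pool.Agent.CR
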