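import Pool.Agent.H71.CR.Stmt
import Pool.Agent.H94.VK.Meas

/-!
# MVS: the conditions on atoms and swaps are Borel
-/

set_option autoImplicit false

open Set Pool.Agent.TK Pool.Agent.H71.VK

namespace Pool.Agent.CR

section
variable {C : Type} [MeasurableSpace C]

lemma h75_meas_bn (l : List ℕ) : Measurable fun M : St (C × ℕ) => bn M l :=
  measurable_snd.comp (measurable_value l)

lemma h75_meas_pl (p : List (ℕ × ℕ)) :
    Measurable fun M : St (C × ℕ) => Pl (bn M) (bn M) p := by
  unfold Pl
  refine Measurable.forall fun q => measurable_const.imp ?_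
  exact measurableSet_setOfPred.1 (measurableSet_eq_fun (h75_meas_bn _) (h75_meas_bn _))

lemma h75_meas_mem (hMST : T_MST C) (π : Pr) (x : ℕ) :
    Measurable fun M : St (C × ℕ) => x ∈ st (bn M) π :=
  measurableSet_setOfPred.1 ((hMST π).1 x)

lemma h75_meas_memL {A B : St (C × ℕ) → ℕ → Prop} (hA : ∀ x, Measurable fun M => A M x)
    (hB : ∀ x, Measurable fun M => B M x) (p : List (ℕ × ℕ)) :
    Measurable fun M : St (C × ℕ) => ∀ z ∈ p, A M z.1 ∧ B M z.2 :=
  Measurable.forall fun z => measurable_const.imp ((hA z.1).and (hB z.2))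

end

theorem pf_MVS {C : Type} [MeasurableSpace C] (hMST : T_MST C) : T_MVS C := by
  intro π S F v v' R R'
  refine ⟨measurableSet_setOfPred.2 ?_, measurableSet_setOfPred.2 ?_⟩
  · unfold Vc
    exact Measurable.forall fun w =>
      (h75_meas_mem hMST ((S, F, ([v], []), true) :: π) w).imp
        (h75_meas_mem hMST ((S, F, ([w], []), true) :: π) v)
  · unfold Swp
    have h1 := h75_meas_mem hMST ((S, F, ([v], R), true) :: π)
    have h2 := h75_meas_mem hMST ((S, F, ([v'], R'), true) :: π)
    refine Measurable.forall fun p => Measurable.forall fun q =>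
      (h75_meas_memL h1 h2 p).imp ((h75_meas_memL h2 h1 q).imp ((h75_meas_pl _).imp
      ((h75_meas_pl _).imp (Measurable.forall fun D => Measurable.imp ?_ (h75_meas_pl _)))))
    refine Measurable.forall fun x => measurable_const.imp (Measurable.and ?_
      ((h1 x).not.and (h2 x).not))
    exact (h75_meas_mem hMST π x).and measurable_const

end Pool.Agent.CR
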