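import Pool.Agent.H71.CR.Stmt
import Pool.Agent.H94.VK.Meas

/-!
# RLG: the orbit relation is generated by the moves, and it is Borel
-/

set_option autoImplicit false

open Set Pool.Agent.TK Pool.Agent.H71.VK

namespace Pool.Agent.CR

open Pool.Agent.H41.ST (RelN FlatN)
open Pool.Agent.H94.VK (isoH_inv map_map_inv meas_rtg)

variable {C : Type} {c0 : C}

/-! ### the orbit relation -/

lemma h75_isA_inv {O : Set (Tr C)} {M : St (C × ℕ)} {f : Equiv.Perm ℕ} (h : IsA O M f) :
    IsA O M f⁻¹ := by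
  obtain ⟨h1, π, h2, h3, h4⟩ := h
  refine ⟨isoH_inv h1, π, h2, h3, fun x hx => ?_⟩
  change f.symm x = x
  rw [Equiv.symm_apply_eq, h4 x hx]

lemma h75_mvg_symm {O : Set (Tr C)} {M : St (C × ℕ)} {l m : List ℕ} (h : MvA O M l m ∨ MvS O M l m) :
    MvA O M m l ∨ MvS O M m l := by
  rcases h with ⟨f, hf, rfl⟩ | ⟨f, hf, rfl⟩
  · exact Or.inl ⟨f⁻¹, h75_isA_inv hf, (map_map_inv f l).2⟩
  · refine Or.inr ⟨f, hf, ?_⟩
    rw [List.map_map]
    have : (f ∘ f : ℕ → ℕ) = id := funext hf.2.1
    rw [this, List.map_id]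

theorem h75_rlg1 (O : Set (Tr C)) (M : St (C × ℕ)) (l m : List ℕ) : RelN (NG O M) l m ↔
    Relation.ReflTransGen (fun l m => MvA O M l m ∨ MvS O M l m) l m := by
  constructor
  · rintro ⟨n, hn, rfl⟩
    unfold NG at hn
    revert l
    induction hn using Subgroup.closure_induction with
    | mem x hx =>
      intro l
      rcases hx with hx | hx
      · exact Relation.ReflTransGen.single (Or.inl ⟨x, hx, rfl⟩)
      · exact Relation.ReflTransGen.single (Or.inr ⟨x, hx, rfl⟩)
    | one =>
      intro l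
      have : l.map (1 : Equiv.Perm ℕ) = l := by simp
      rw [this]
    | mul x y _ _ hx hy =>
      intro l
      have : l.map (x * y : Equiv.Perm ℕ) = (l.map y).map x := by
        rw [List.map_map, ← Equiv.Perm.coe_mul]
      rw [this]
      exact (hy l).trans (hx (l.map y))
    | inv x _ hx =>
      intro l
      have h1 := hx (l.map (x⁻¹ : Equiv.Perm ℕ))
      rw [(map_map_inv x l).1] at h1
      have hs' : ∀ a b, Relation.ReflTransGen (fun l m => MvA O M l m ∨ MvS O M l m) a b →
          Relation.ReflTransGen (fun l m => MvA O M l m ∨ MvS O M l m) b a := by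
        intro a b hab
        induction hab with
        | refl => exact Relation.ReflTransGen.refl
        | @tail b c _ h2 ih =>
          have h3 : (fun l m => MvA O M l m ∨ MvS O M l m) c b := h75_mvg_symm h2
          exact (Relation.ReflTransGen.single
            (r := fun l m => MvA O M l m ∨ MvS O M l m) h3).trans ih
      exact hs' _ _ h1
  · intro h
    induction h with
    | refl => exact ⟨1, one_mem _, by simp⟩
    | tail _ h2 ih =>
      obtain ⟨n, hn, rfl⟩ := ih
      rcases h2 with ⟨f, hf, rfl⟩ | ⟨f, hf, rfl⟩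
      · refine ⟨f * n, mul_mem (Subgroup.subset_closure (Or.inl hf)) hn, ?_⟩
        rw [List.map_map, ← Equiv.Perm.coe_mul]
      · refine ⟨f * n, mul_mem (Subgroup.subset_closure (Or.inr hf)) hn, ?_⟩
        rw [List.map_map, ← Equiv.Perm.coe_mul]

theorem pf_RLG {C : Type} {c0 : C} [MeasurableSpace C] [StandardBorelSpace C]
    (hMBV : T_MBV C) (hMVB : T_MVB C c0) (hMVC : T_MVC C c0) : T_RLG C c0 := by
  refine ⟨h75_rlg1, ?_⟩
  intro n O hO l m
  have h : {M : St (C × ℕ) | BV c0 n M ∧ RelN (NG O M) l m} = {M : St (C × ℕ) | BV c0 n M} ∩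
      {M : St (C × ℕ) | Relation.ReflTransGen
        (fun l m => BV c0 n M ∧ (MvA O M l m ∨ MvS O M l m)) l m} := by
    ext M
    simp only [mem_inter_iff, mem_ofPred_eq]
    constructor
    · rintro ⟨h1, h2⟩
      refine ⟨h1, ?_⟩
      rw [h75_rlg1 O M l m] at h2
      exact Relation.ReflTransGen.mono (r := fun l m => MvA O M l m ∨ MvS O M l m)
        (p := fun l m => BV c0 n M ∧ (MvA O M l m ∨ MvS O M l m))
        (fun _ _ hs => ⟨h1, hs⟩) _ _ h2
    · rintro ⟨h1, h2⟩
      refine ⟨h1, ?_⟩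
      rw [h75_rlg1 O M l m]
      exact Relation.ReflTransGen.mono
        (r := fun l m => BV c0 n M ∧ (MvA O M l m ∨ MvS O M l m))
        (p := fun l m => MvA O M l m ∨ MvS O M l m) (fun _ _ hs => hs.2) _ _ h2
  rw [h]
  refine (hMBV c0 n).inter (meas_rtg _ (fun l m => ?_) l m)
  have h3 : {M : St (C × ℕ) | BV c0 n M ∧ (MvA O M l m ∨ MvS O M l m)} =
      {M : St (C × ℕ) | BV c0 n M ∧ MvA O M l m} ∪
      {M : St (C × ℕ) | BV c0 n M ∧ MvS O M l m} := by
    ext M
    simp only [mem_union, mem_ofPred_eq]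
    tauto
  rw [h3]
  exact (hMVB n O hO l m).union (hMVC n O hO l m)

end Pool.Agent.CR
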